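import Mathlib
import Pool.Agent.H637R2.Gott.MonoMain

set_option autoImplicit false
set_option linter.unusedSectionVars false

/-!
# The structure of injective order-preserving cellular automata
-/

namespace Pool.Agent.X882.Ord

open Finset Pool.Agent.H637R2.Gott

universe u v

/-- an injective self-map of a finite partially ordered set with `x ≤ f x` is the identity -/
theorem eq_of_le_inj {P : Type*} [Finite P] [PartialOrder P] (f : P → P) (hf : Function.Injective f)
    (h : ∀ x, x ≤ f x) (x : P) : f x = x := by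
  have hb : Function.Bijective f := Finite.injective_iff_bijective.1 hf
  obtain ⟨k, hk, hk2⟩ : ∃ k : ℕ, 0 < k ∧ f^[k] x = x := by
    have h1 : x ∈ Function.periodicPts f := hf.mem_periodicPts x
    obtain ⟨k, hk, hk2⟩ := h1
    exact ⟨k, hk, hk2⟩
  have hle : ∀ n : ℕ, f x ≤ f^[n + 1] x := by
    intro n
    induction n with
    | zero => simp
    | succ n ih =>
      rw [Function.iterate_succ_apply']
      exact ih.trans (h _)
  obtain ⟨n, rfl⟩ : ∃ n, k = n + 1 := ⟨k - 1, by omega⟩
  have h2 := hle n
  rw [hk2] at h2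
  exact le_antisymm h2 (h x)

theorem eq_of_inj_le {P : Type*} [Finite P] [PartialOrder P] (f : P → P) (hf : Function.Injective f)
    (h : ∀ x, f x ≤ x) (x : P) : f x = x :=
  eq_of_le_inj (P := Pᵒᵈ) f hf h x

section

variable {G : Type u} [Group G] {A : Type v} [PartialOrder A] [BoundedOrder A]

open Classical in
/-- the configuration which is `c` at `1` and the greatest element elsewhere -/
noncomputable def single (c : A) : G → A := Function.update (fun _ => ⊤) 1 c

theorem single_one (c : A) : (single c : G → A) 1 = c := by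
  classical
  simp [single]

theorem single_ne (c : A) {g : G} (hg : g ≠ 1) : (single c : G → A) g = ⊤ := by
  classical
  simp [single, Function.update_of_ne hg]

theorem const_le_single (c : A) : (fun _ : G => c) ≤ single c := by
  intro g
  by_cases hg : g = 1
  · subst hg; rw [single_one]
  · rw [single_ne c hg]; exact le_top

theorem single_mono {c d : A} (h : c ≤ d) : (single c : G → A) ≤ single d := by
  intro g
  by_cases hg : g = 1
  · subst hg; rw [single_one, single_one]; exact h
  · rw [single_ne c hg, single_ne d hg]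

/-- `p s c`: the value at `s⁻¹` of the image of `single c` -/
noncomputable def p (τ : (G → A) → (G → A)) (s : G) (c : A) : A := τ (single c) s⁻¹

variable {τ : (G → A) → (G → A)}

theorem le_p_of (he : Equi τ) (hm : Monotone τ) (Y : G → A) (k s : G) : τ Y k ≤ p τ s (Y (k * s)) := by
  have h1 : Y ≤ fun j => (single (Y (k * s)) : G → A) ((k * s)⁻¹ * j) := by
    intro j
    by_cases hj : j = k * s
    · subst hj; simp [single_one]
    · have : (k * s)⁻¹ * j ≠ 1 := by
        intro h
        rw [inv_mul_eq_one] at h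
        exact hj h.symm
      simp only [single_ne _ this]
      exact le_top
  have h2 := hm h1 k
  rw [he] at h2
  have h3 : (k * s)⁻¹ * k = s⁻¹ := by group
  simp only [h3] at h2
  exact h2

theorem self_le_p (hm : Monotone τ) (hc : ∀ a : A, τ (fun _ => a) = fun _ => a) (s : G) (c : A) :
    c ≤ p τ s c := by
  have h := hm (const_le_single (G := G) c) s⁻¹
  rw [hc c] at h
  exact h

theorem p_mono (hm : Monotone τ) (s : G) {c d : A} (h : c ≤ d) : p τ s c ≤ p τ s d :=
  hm (single_mono h) s⁻¹

variable {t : A → G}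
  (H : ∀ b, IsCoatom b → ∀ (Y : G → A) (k : G), τ Y k ≤ b ↔ Y (k * t b) ≤ b)

include H in
theorem p_le_coatom {b : A} (hb : IsCoatom b) (s : G) (c : A) :
    p τ s c ≤ b ↔ s = t b ∧ c ≤ b := by
  unfold p
  rw [H b hb]
  by_cases hs : s = t b
  · subst hs
    simp [single_one]
  · have : s⁻¹ * t b ≠ 1 := by
      intro h
      rw [inv_mul_eq_one] at h
      exact hs h
    rw [single_ne _ this]
    constructor
    · intro h; exact absurd (top_le_iff.1 h) hb.1
    · intro h; exact absurd h.1 hs

/-- `c` lies only below coatoms `b` with `t b = s` -/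
def VV (t : A → G) (s : G) : Set A := {c | ∀ b, IsCoatom b → c ≤ b → t b = s}

include H in
theorem p_mem (s : G) (c : A) : p τ s c ∈ VV t s := by
  intro b hb h
  exact ((p_le_coatom H hb s c).1 h).1.symm

variable [Finite A]

theorem eq_top_of {c : A} (h : ∀ b, IsCoatom b → ¬ c ≤ b) : c = ⊤ := by
  rcases eq_top_or_exists_le_coatom c with h1 | ⟨b, hb, hcb⟩
  · exact h1
  · exact absurd hcb (h b hb)

include H in
theorem p_eq_top {s s' : G} (hs : s' ≠ s) {w : A} (hw : w ∈ VV t s) : p τ s' w = ⊤ := by
  apply eq_top_of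
  intro b hb h
  obtain ⟨h1, h2⟩ := (p_le_coatom H hb s' w).1 h
  exact hs (h1.trans (hw b hb h2))

include H in
theorem p_eq_self (hm : Monotone τ) (hi : Function.Injective τ)
    (hc : ∀ a : A, τ (fun _ => a) = fun _ => a) {s : G} {w : A} (hw : w ∈ VV t s) :
    p τ s w = w := by
  let f : VV t s → VV t s := fun w => ⟨p τ s w, p_mem H s w⟩
  have hf : Function.Injective f := by
    intro a b hab
    have h1 : p τ s a = p τ s b := congrArg Subtype.val hab
    have h2 : τ (single (a : A)) = τ (single (b : A)) := by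
      funext k
      by_cases hk : k⁻¹ = s
      · have : k = s⁻¹ := by rw [← hk, inv_inv]
        subst this
        exact h1
      · have h3 := p_eq_top H hk a.2
        have h4 := p_eq_top H hk b.2
        unfold p at h3 h4
        rw [inv_inv] at h3 h4
        rw [h3, h4]
    have h3 := congrFun (hi h2) 1
    rw [single_one, single_one] at h3
    exact Subtype.ext h3
  have h := eq_of_le_inj f hf (fun x => self_le_p hm hc s (x : A)) ⟨w, hw⟩
  exact congrArg Subtype.val h

include H in
theorem p_le (hm : Monotone τ) (hi : Function.Injective τ)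
    (hc : ∀ a : A, τ (fun _ => a) = fun _ => a) {s : G} {c w : A} (hw : w ∈ VV t s) (h : c ≤ w) :
    p τ s c ≤ w := by
  rw [← p_eq_self H hm hi hc hw]
  exact p_mono hm s h

/-- the values of `t` on the coatoms -/
noncomputable def TT (A : Type v) [PartialOrder A] [BoundedOrder A] [Finite A] (t : A → G) : Finset G :=
  ((Set.toFinite {b : A | IsCoatom b}).image t).toFinset

theorem mem_TT {b : A} (hb : IsCoatom b) : t b ∈ TT A t := by
  unfold TT
  rw [Set.Finite.mem_toFinset]
  exact ⟨b, hb, rfl⟩

theorem of_mem_TT {s : G} (hs : s ∈ TT A t) : ∃ b, IsCoatom b ∧ t b = s := by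
  unfold TT at hs
  rw [Set.Finite.mem_toFinset] at hs
  exact hs

include H in
theorem p_eq_top' {s : G} (hs : s ∉ TT A t) (c : A) : p τ s c = ⊤ := by
  apply eq_top_of
  intro b hb h
  obtain ⟨h1, -⟩ := (p_le_coatom H hb s c).1 h
  exact hs (h1 ▸ mem_TT hb)

open Classical in
/-- the configuration with the values `w s` at `s ∈ T`, the greatest element elsewhere -/
noncomputable def XX (w : ∀ s : TT A t, VV t (s : G)) : G → A := fun g =>
  if h : g ∈ TT A t then (w ⟨g, h⟩ : A) else ⊤

theorem XX_mem (w : ∀ s : TT A t, VV t (s : G)) {g : G} (h : g ∈ TT A t) :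
    XX w g = (w ⟨g, h⟩ : A) := by
  simp [XX, h]

theorem XX_not (w : ∀ s : TT A t, VV t (s : G)) {g : G} (h : g ∉ TT A t) :
    XX w g = ⊤ := by
  simp [XX, h]

include H in
theorem tau_XX (w : ∀ s : TT A t, VV t (s : G)) {k : G} (hk : k ≠ 1) : τ (XX w) k = ⊤ := by
  apply eq_top_of
  intro b hb h
  rw [H b hb] at h
  by_cases h1 : k * t b ∈ TT A t
  · rw [XX_mem w h1] at h
    have h2 := (w ⟨k * t b, h1⟩).2 b hb h
    apply hk
    have h3 : 1 * t b = k * t b := by rw [one_mul]; exact h2
    exact (mul_right_cancel h3).symm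
  · rw [XX_not w h1] at h
    exact hb.1 (top_le_iff.1 h)

/-- the inverse of the decomposition -/
noncomputable def qq (τ : (G → A) → (G → A)) (w : ∀ s : TT A t, VV t (s : G)) : A := τ (XX w) 1

include H in
theorem qq_inj (hi : Function.Injective τ) :
    Function.Injective (qq τ : (∀ s : TT A t, VV t (s : G)) → A) := by
  intro w w' h
  have h1 : τ (XX w) = τ (XX w') := by
    funext k
    by_cases hk : k = 1
    · subst hk; exact h
    · rw [tau_XX H w hk, tau_XX H w' hk]
  have h2 := hi h1
  funext s
  have h3 := congrFun h2 (s : G)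
  rw [XX_mem w s.2, XX_mem w' s.2] at h3
  exact Subtype.ext h3

theorem qq_mono (hm : Monotone τ) :
    Monotone (qq τ : (∀ s : TT A t, VV t (s : G)) → A) := by
  intro w w' h
  apply hm
  intro g
  by_cases hg : g ∈ TT A t
  · rw [XX_mem w hg, XX_mem w' hg]
    exact h ⟨g, hg⟩
  · rw [XX_not w hg, XX_not w' hg]

/-- the decomposition -/
noncomputable def PP (τ : (G → A) → (G → A))
    (H : ∀ b, IsCoatom b → ∀ (Y : G → A) (k : G), τ Y k ≤ b ↔ Y (k * t b) ≤ b) (c : A) :
    ∀ s : TT A t, VV t (s : G) := fun s => ⟨p τ s c, p_mem H s c⟩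

theorem PP_mono (hm : Monotone τ) : Monotone (PP τ H) := by
  intro c d h s
  exact p_mono hm (s : G) h

theorem PP_inj (hi : Function.Injective τ) : Function.Injective (PP τ H) := by
  intro c d h
  have h1 : τ (single c) = τ (single d) := by
    funext k
    by_cases hk : k⁻¹ ∈ TT A t
    · have h2 := congrArg Subtype.val (congrFun h ⟨k⁻¹, hk⟩)
      have h3 : p τ k⁻¹ c = p τ k⁻¹ d := h2
      unfold p at h3
      rw [inv_inv] at h3
      exact h3
    · have h3 := p_eq_top' H hk c
      have h4 := p_eq_top' H hk d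
      unfold p at h3 h4
      rw [inv_inv] at h3 h4
      rw [h3, h4]
  have h3 := congrFun (hi h1) 1
  rw [single_one, single_one] at h3
  exact h3

theorem qq_PP (hm : Monotone τ) (hi : Function.Injective τ)
    (hc : ∀ a : A, τ (fun _ => a) = fun _ => a) (c : A) : qq τ (PP τ H c) = c := by
  apply eq_of_le_inj (fun c => qq τ (PP τ H c)) ((qq_inj H hi).comp (PP_inj H hi))
  intro x
  have h : (fun _ : G => x) ≤ XX (PP τ H x) := by
    intro g
    by_cases hg : g ∈ TT A t
    · rw [XX_mem _ hg]
      exact self_le_p hm hc g x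
    · rw [XX_not _ hg]
      exact le_top
  have h1 := hm h 1
  rw [hc x] at h1
  exact h1

theorem PP_qq (hm : Monotone τ) (hi : Function.Injective τ)
    (hc : ∀ a : A, τ (fun _ => a) = fun _ => a) (w : ∀ s : TT A t, VV t (s : G)) :
    PP τ H (qq τ w) = w := qq_inj H hi (qq_PP H hm hi hc _)

/-- the decomposition as an order isomorphism -/
noncomputable def ee (hm : Monotone τ) (hi : Function.Injective τ)
    (hc : ∀ a : A, τ (fun _ => a) = fun _ => a) : A ≃o (∀ s : TT A t, VV t (s : G)) where
  toFun := PP τ H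
  invFun := qq τ
  left_inv := qq_PP H hm hi hc
  right_inv := PP_qq H hm hi hc
  map_rel_iff' := by
    intro a b
    constructor
    · intro h
      have h1 := qq_mono hm h
      simp only [Equiv.coe_fn_mk] at h1
      rw [qq_PP H hm hi hc, qq_PP H hm hi hc] at h1
      exact h1
    · intro h
      exact PP_mono H hm h

end

section shift

variable {G : Type u} [Group G] {A : Type v} [PartialOrder A] {T : Finset G} {B : G → Type v}
  [∀ s, PartialOrder (B s)]

/-- the product of the right translations by the elements of `T` on the factors of `A` -/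
def Sh (e : A ≃o (∀ s : T, B (s : G))) (Y : G → A) : G → A := fun g =>
  e.symm fun s => e (Y (g * (s : G))) s

/-- the inverse -/
def Sh' (e : A ≃o (∀ s : T, B (s : G))) (Y : G → A) : G → A := fun g =>
  e.symm fun s => e (Y (g * (s : G)⁻¹)) s

theorem Sh'_Sh (e : A ≃o (∀ s : T, B (s : G))) (Y : G → A) : Sh' e (Sh e Y) = Y := by
  funext g
  simp [Sh, Sh']

theorem Sh_Sh' (e : A ≃o (∀ s : T, B (s : G))) (Y : G → A) : Sh e (Sh' e Y) = Y := by
  funext g
  simp [Sh, Sh']

end shift

section main

variable {G : Type u} [Group G] {A : Type v} [PartialOrder A] [BoundedOrder A] [Finite A]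
  {τ : (G → A) → (G → A)} {t : A → G}
  (H : ∀ b, IsCoatom b → ∀ (Y : G → A) (k : G), τ Y k ≤ b ↔ Y (k * t b) ≤ b)

theorem back_le (he : Equi τ) (hm : Monotone τ) (hi : Function.Injective τ)
    (hc : ∀ a : A, τ (fun _ => a) = fun _ => a) (Y : G → A) : Sh' (B := fun s => VV t s) (ee H hm hi hc) (τ Y) ≤ Y := by
  intro g
  unfold Sh'
  rw [OrderIso.symm_apply_le]
  intro s
  show p τ s (τ Y (g * (s : G)⁻¹)) ≤ p τ s (Y g)
  apply p_le H hm hi hc (p_mem H s _)
  have h := le_p_of he hm Y (g * (s : G)⁻¹) s
  rw [inv_mul_cancel_right] at h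
  exact h

theorem back_top (hm : Monotone τ) (hi : Function.Injective τ)
    (hc : ∀ a : A, τ (fun _ => a) = fun _ => a) (Y : G → A) (g : G) (hY : Y g = ⊤) :
    Sh' (B := fun s => VV t s) (ee H hm hi hc) (τ Y) g = ⊤ := by
  apply eq_top_of
  intro b hb h
  unfold Sh' at h
  rw [OrderIso.symm_apply_le] at h
  have h1 : p τ (t b) (τ Y (g * (t b)⁻¹)) ≤ p τ (t b) b := h ⟨t b, mem_TT hb⟩
  have h2 : p τ (t b) b = b := by
    apply p_eq_self H hm hi hc
    intro b' hb' hbb
    rcases hb.le_iff.1 hbb with h3 | h3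
    · exact absurd h3 hb'.1
    · rw [h3]
  rw [h2] at h1
  have h3 := (self_le_p hm hc (t b) (τ Y (g * (t b)⁻¹))).trans h1
  rw [H b hb, inv_mul_cancel_right, hY] at h3
  exact hb.1 (top_le_iff.1 h3)

theorem tau_eq_of_support (he : Equi τ) (hm : Monotone τ) (hi : Function.Injective τ)
    (hc : ∀ a : A, τ (fun _ => a) = fun _ => a) (E : Finset G) (Y : G → A)
    (hY : ∀ g, g ∉ E → Y g = ⊤) : τ Y = Sh (B := fun s => VV t s) (ee H hm hi hc) Y := by
  classical
  let F : Type _ := {X : G → A // ∀ g, g ∉ E → X g = ⊤}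
  have hfin : Finite F := by
    apply Finite.of_injective (fun (X : F) (g : E) => X.1 g)
    intro X X' h
    apply Subtype.ext
    funext g
    by_cases hg : g ∈ E
    · exact congrFun h ⟨g, hg⟩
    · rw [X.2 g hg, X'.2 g hg]
  let f : F → F := fun X => ⟨Sh' (B := fun s => VV t s) (ee H hm hi hc) (τ X.1), fun g hg =>
    back_top H hm hi hc X.1 g (X.2 g hg)⟩
  have hf : Function.Injective f := by
    intro X X' h
    have h1 : Sh' (B := fun s => VV t s) (ee H hm hi hc) (τ X.1) = Sh' (B := fun s => VV t s) (ee H hm hi hc) (τ X'.1) := congrArg Subtype.val h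
    have h2 := congrArg (Sh (B := fun s => VV t s) (ee H hm hi hc)) h1
    rw [Sh_Sh', Sh_Sh'] at h2
    exact Subtype.ext (hi h2)
  have h1 := eq_of_inj_le f hf (fun X => back_le H he hm hi hc X.1) ⟨Y, hY⟩
  have h2 : Sh' (B := fun s => VV t s) (ee H hm hi hc) (τ Y) = Y := congrArg Subtype.val h1
  have h3 := congrArg (Sh (B := fun s => VV t s) (ee H hm hi hc)) h2
  rw [Sh_Sh'] at h3
  exact h3

theorem tau_eq [TopologicalSpace A] [DiscreteTopology A] (hcont : Continuous τ) (he : Equi τ)
    (hm : Monotone τ) (hi : Function.Injective τ)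
    (hc : ∀ a : A, τ (fun _ => a) = fun _ => a) (Y : G → A) : τ Y = Sh (B := fun s => VV t s) (ee H hm hi hc) Y := by
  classical
  funext k
  let YE : Finset G → (G → A) := fun E g => if g ∈ E then Y g else ⊤
  have htend : Filter.Tendsto YE Filter.atTop (nhds Y) := by
    rw [tendsto_pi_nhds]
    intro g
    apply tendsto_const_nhds.congr'
    filter_upwards [Filter.eventually_ge_atTop ({g} : Finset G)] with E hE
    have : g ∈ E := hE (Finset.mem_singleton_self g)
    simp [YE, this]
  have h1 : Filter.Tendsto (fun E => τ (YE E) k) Filter.atTop (nhds (τ Y k)) :=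
    ((continuous_apply k).tendsto _).comp ((hcont.tendsto Y).comp htend)
  have h2 : ∀ᶠ E in Filter.atTop, τ (YE E) k = τ Y k :=
    h1.eventually ((isOpen_discrete {τ Y k}).mem_nhds rfl)
  obtain ⟨E, hE1, hE2⟩ := (h2.and (Filter.eventually_ge_atTop
    ((TT A t).image (fun s => k * s)))).exists
  rw [← hE1, tau_eq_of_support H he hm hi hc E (YE E) (fun g hg => by simp [YE, hg])]
  unfold Sh
  congr 1
  funext s
  have h3 : k * (s : G) ∈ E := hE2 (Finset.mem_image.2 ⟨s, s.2, rfl⟩)
  simp [YE, h3]

end main

end Pool.Agent.X882.Ord
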