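import Mathlib
import Pool.Agent.X882.Ord.Struct

set_option autoImplicit false

/-!
# Injective order-preserving or order-reversing cellular automata: classification
-/

namespace Pool.Agent.X882.Ord

open Finset Pool.Agent.H637R2.Gott

universe u v

section

variable {G : Type u} [Group G] {A : Type v} [Fintype A] [PartialOrder A] [BoundedOrder A]
  [TopologicalSpace A] [DiscreteTopology A]

/-- the coatoms are tested by single coordinates -/
theorem exists_H (τ : (G → A) → (G → A)) (hcont : Continuous τ) (he : Equi τ)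
    (hi : Function.Injective τ) (hm : Monotone τ) (hc : ∀ a : A, τ (fun _ => a) = fun _ => a) :
    ∃ t : A → G, ∀ b, IsCoatom b → ∀ (Y : G → A) (k : G), τ Y k ≤ b ↔ Y (k * t b) ≤ b := by
  classical
  -- surjectivity on `[⊥, b]` for coatoms `b`
  have hIic : ∀ b : A, IsCoatom b → ∀ Z : G → A, (∀ g, Z g ≤ b) →
      ∃ X : G → A, (∀ g, X g ≤ b) ∧ τ X = Z := by
    intro b hb Z hZ
    have hle : ∀ (x : G → Set.Iic b) (g : G), τ (fun h => (x h : A)) g ≤ b := by
      intro x g
      have h1 : (fun h => (x h : A)) ≤ fun _ => b := fun h => (x h).2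
      have h2 := hm h1 g
      rw [hc b] at h2
      exact h2
    let σ : (G → Set.Iic b) → (G → Set.Iic b) := fun x g => ⟨τ (fun h => (x h : A)) g, hle x g⟩
    have hσ : Function.Surjective σ := by
      apply mono_fixed (Fintype.card (Set.Iic b)) (Set.Iic b) le_rfl σ
      · refine continuous_pi fun g => Continuous.subtype_mk ?_ _
        exact (continuous_apply g).comp (hcont.comp
          (continuous_pi fun h => continuous_subtype_val.comp (continuous_apply h)))
      · intro g x
        funext k
        apply Subtype.ext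
        exact congrFun (he g (fun h => (x h : A))) k
      · intro x y hxy
        have h1 : τ (fun h => (x h : A)) = τ (fun h => (y h : A)) := by
          funext g
          exact congrArg Subtype.val (congrFun hxy g)
        have h2 := hi h1
        funext g
        exact Subtype.ext (congrFun h2 g)
      · intro x y hxy g
        have h1 : (fun h => (x h : A)) ≤ fun h => (y h : A) := fun h => hxy h
        exact hm h1 g
      · intro a
        funext g
        apply Subtype.ext
        exact congrFun (hc a) g
    obtain ⟨x, hx⟩ := hσ (fun g => ⟨Z g, hZ g⟩)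
    refine ⟨fun h => (x h : A), fun g => (x g).2, ?_⟩
    funext g
    exact congrArg Subtype.val (congrFun hx g)
  let t : A → G := fun b => if hb : IsCoatom b then (exists_t he hi hm hc hb).choose else 1
  refine ⟨t, ?_⟩
  intro b hb
  have ht : ∀ (Y : G → A) (k : G), Y (k * t b) ≤ b → τ Y k ≤ b := by
    have := (exists_t he hi hm hc hb).choose_spec
    simpa only [t, hb, dif_pos] using this
  intro Y k
  exact ⟨conv hm hi ht (hIic b hb) Y k, ht Y k⟩

/-- the classification, for maps which fix the constants -/
theorem fixed_struct (τ : (G → A) → (G → A)) (hcont : Continuous τ) (he : Equi τ)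
    (hi : Function.Injective τ) (hm : Monotone τ) (hc : ∀ a : A, τ (fun _ => a) = fun _ => a) :
    ∃ (T : Finset G) (B : G → Type v) (_ : ∀ s, PartialOrder (B s))
      (e : A ≃o (∀ s : T, B (s : G))), (∀ s : T, Nontrivial (B (s : G))) ∧
      ∀ (x : G → A) (g : G), τ x g = e.symm fun s => e (x (g * (s : G))) s := by
  obtain ⟨t, H⟩ := exists_H τ hcont he hi hm hc
  refine ⟨TT A t, fun s => VV t s, fun s => inferInstance, ee H hm hi hc, ?_, ?_⟩
  · intro s
    obtain ⟨b, hb, hbs⟩ := of_mem_TT s.2
    refine ⟨⟨⟨b, ?_⟩, ⟨⊤, ?_⟩, ?_⟩⟩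
    · intro b' hb' hbb
      rcases hb.le_iff.1 hbb with h3 | h3
      · exact absurd h3 hb'.1
      · rw [h3]; exact hbs
    · intro b' hb' h
      exact absurd (top_le_iff.1 h) hb'.1
    · intro h
      exact hb.1 (congrArg Subtype.val h)
  · intro x g
    exact congrFun (tau_eq H hcont he hm hi hc x) g

theorem iterate_antitone {P : Type*} [Preorder P] {f : P → P} (hf : Antitone f) (n : ℕ) :
    Antitone f^[2 * n + 1] := by
  induction n with
  | zero => simpa using hf
  | succ n ih =>
    have h1 : f^[2 * (n + 1) + 1] = f ∘ f ∘ f^[2 * n + 1] := by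
      rw [show 2 * (n + 1) + 1 = (2 * n + 1) + 1 + 1 by ring, Function.iterate_succ',
        Function.iterate_succ']
    rw [h1]
    intro a b hab
    exact hf (hf (ih hab))

/-- the classification -/
theorem struct (τ : (G → A) → (G → A)) (hcont : Continuous τ) (he : Equi τ)
    (hi : Function.Injective τ) (hm : Monotone τ ∨ Antitone τ) :
    ∃ (α : Equiv.Perm A) (T : Finset G) (B : G → Type v) (_ : ∀ s, PartialOrder (B s))
      (e : A ≃o (∀ s : T, B (s : G))),
      ((Monotone τ ∧ ∀ a b, α a ≤ α b ↔ a ≤ b) ∨ (Antitone τ ∧ ∀ a b, α a ≤ α b ↔ b ≤ a)) ∧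
      (∀ s : T, Nontrivial (B (s : G))) ∧
      ∀ (x : G → A) (g : G), τ x g = α (e.symm fun s => e (x (g * (s : G))) s) := by
  classical
  let a0 : A → A := fun a => τ (fun _ => a) 1
  have hα : ∀ a, τ (fun _ => a) = fun _ => a0 a := by
    intro a
    funext h
    have h1 := congrFun (he h (fun _ => a)) h
    simp only [inv_mul_cancel] at h1
    exact h1
  have hinj : Function.Injective a0 := by
    intro a b hab
    have h1 : τ (fun _ => a) = τ (fun _ => b) := by rw [hα, hα, hab]
    exact congrFun (hi h1) 1
  let α : Equiv.Perm A := Equiv.ofBijective a0 (Finite.injective_iff_bijective.1 hinj)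
  have hαa : ∀ a, α a = a0 a := fun a => rfl
  have hinv : ∀ a, α⁻¹ (α a) = a := fun a => α.symm_apply_apply a
  -- the inverse is an odd iterate
  obtain ⟨n, hn⟩ : ∃ n, ∀ a, α⁻¹ a = a0^[2 * n + 1] a := by
    have hpos : 0 < orderOf α := orderOf_pos α
    obtain ⟨k, hk⟩ : ∃ k, orderOf α = k + 1 := ⟨orderOf α - 1, by omega⟩
    refine ⟨k, fun a => ?_⟩
    have h1 : α ^ (2 * k + 1) = α⁻¹ := by
      have h2 : α ^ (2 * k + 1) * α = 1 := by
        rw [← pow_succ, show 2 * k + 1 + 1 = (k + 1) * 2 by ring, pow_mul, ← hk,
          pow_orderOf_eq_one, one_pow]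
      exact eq_inv_of_mul_eq_one_left h2
    rw [← h1, ← Equiv.Perm.iterate_eq_pow]
    rfl
  have hcases : (Monotone τ ∧ Monotone a0 ∧ Monotone ⇑α⁻¹) ∨
      (Antitone τ ∧ Antitone a0 ∧ Antitone ⇑α⁻¹) := by
    rcases hm with hm | hm
    · left
      have h0 : Monotone a0 := by
        intro a b hab
        have h1 : (fun _ : G => a) ≤ fun _ => b := fun _ => hab
        exact hm h1 1
      refine ⟨hm, h0, ?_⟩
      intro a b hab
      rw [hn, hn]
      exact h0.iterate _ hab
    · right
      have h0 : Antitone a0 := by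
        intro a b hab
        have h1 : (fun _ : G => a) ≤ fun _ => b := fun _ => hab
        exact hm h1 1
      refine ⟨hm, h0, ?_⟩
      intro a b hab
      rw [hn, hn]
      exact iterate_antitone h0 n hab
  let τ' : (G → A) → (G → A) := fun x g => α⁻¹ (τ x g)
  obtain ⟨T, B, hB, e, hnt, hform⟩ := fixed_struct τ'
    (by
      refine continuous_pi fun g => ?_
      exact (continuous_of_discreteTopology (f := (⇑(α⁻¹) : A → A))).comp ((continuous_apply g).comp hcont))
    (by
      intro g x
      funext h
      simp only [τ', he g x])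
    (by
      intro x y hxy
      apply hi
      funext g
      exact α⁻¹.injective (congrFun hxy g))
    (by
      intro x y hxy g
      rcases hcases with ⟨h1, -, h3⟩ | ⟨h1, -, h3⟩
      · exact h3 (h1 hxy g)
      · exact h3 (h1 hxy g))
    (by
      intro a
      funext g
      simp only [τ', hα a]
      rw [← hαa]
      exact α.symm_apply_apply a)
  refine ⟨α, T, B, hB, e, ?_, hnt, ?_⟩
  · rcases hcases with ⟨h1, h2, h3⟩ | ⟨h1, h2, h3⟩
    · left
      refine ⟨h1, fun a b => ⟨fun h => ?_, fun h => h2 h⟩⟩
      have h4 := h3 h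
      rwa [hinv, hinv] at h4
    · right
      refine ⟨h1, fun a b => ⟨fun h => ?_, fun h => h2 h⟩⟩
      have h4 := h3 h
      rwa [hinv, hinv] at h4
  · intro x g
    have h1 := hform x g
    rw [← h1]
    simp [τ']

end

end Pool.Agent.X882.Ord
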